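import Pool.Agent.H31.ZR.KN
import Pool.Agent.H69.THN.BEO1

/-!
Board zr (MP_52e316_nt), row BON: the inequality of Bessel for one coefficient, orthonormal forms.
-/

set_option autoImplicit false

namespace Pool.Agent.H31.ZR

open MeasureTheory Pool.Agent.H27.L1.H34.GM Pool.Agent.H27.L1.H34.GZ Pool.Agent.H27.L1.H34.GU
  Pool.Agent.H27.L1.H34.GA Pool.Agent.H27.L1.H68.GHY
open Pool.Agent.H47.THN (K1 T_KM1 T_OC1)
open Pool.Agent.H12.ZR (Kn En BESN T_BON)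

theorem pf_BON (hBIA : T_BIA) (hDYM : T_DYM) (hMSD : T_MSD) (hKM : T_KM1) (hOC : T_OC1) :
    T_BON := by
  intro m χ hm1 hχ
  obtain ⟨cM, CM, AM, hcM, hCM, hM⟩ := hMSD m χ hm1 hχ
  refine ⟨cM, CM, AM, hcM, hCM, ?_⟩
  intro N _ T D hS ι _ _ F lam P hF hO hP δ hδ hδ2 hδc Y hY n hn
  have hKer := kerM_K1 (N := N) hBIA hKM hOC hS hχ hn hδ hδ2
  have hDm := hS.dom.meas
  have hDdet : ∀ z ∈ D, (mt z).det ≠ 0 := fun z hz =>
    Pool.Agent.H27.L1.H55.GHY.hsd_det hm1 (hS.dom.shell z hz).1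
  have hSm : MeasurableSet (DY D Y) := hDYM m D hS.dom Y
  have hSD : DY D Y ⊆ D := fun z hz => hz.1
  have hH : ∀ i, HecA m N T (F i) (lam i) := fun i => (hF i).1.toHecA
  obtain ⟨KC, hKCd⟩ : ∃ KC : V m → VN m N → V m → VN m N → ℂ, ∀ g x h w, KC g x h w =
      K1 (bi m χ δ) (an n) δ (xn n δ) (mt g) x (mt h) w := ⟨_, fun _ _ _ _ => rfl⟩
  have hKCm : ∀ x w, Measurable (fun p : V m × V m => KC p.1 x p.2 w) := by
    intro x w
    have h2 : (fun p : V m × V m => KC p.1 x p.2 w) = fun p : V m × V m =>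
        K1 (bi m χ δ) (an n) δ (xn n δ) (mt p.1) x (mt p.2) w := funext fun p => hKCd _ _ _ _
    rw [h2]
    exact hKer.meas x w
  have hop0 : ∀ i, ∀ g ∈ D, ∀ x : VN m N, ∫ z in D, ∑ w : VN m N, KC g x z w * F i (mt z) w
      ∂(hm m) = ((n : ℂ) ^ (((m : ℂ) - 1) / 2) * lam i n) * Rr (bi m χ δ) 1 (F i) (mt g) x := by
    intro i g hg x
    rw [← hKer.op (F i) (lam i) (hH i) (mt g) x (hDdet g hg)]
    refine setIntegral_congr_fun hDm (fun z hz => ?_)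
    refine Finset.sum_congr rfl (fun w _ => ?_)
    rw [hKCd]
  have e1 := Pool.Agent.H69.THN.L1.beo_gen hS hH hO KC
    (fun g x h w => ENNReal.ofReal ‖KC g x h w‖) hKCm
    (fun x w => (hKCm x w).norm.ennreal_ofReal) (fun _ _ _ _ => le_rfl)
    (fun i => (n : ℂ) ^ (((m : ℂ) - 1) / 2) * lam i n)
    (fun i => Rr (bi m χ δ) 1 (F i)) hop0 (DY D Y) hSD hSm
  have e2 : ∑ i, ENNReal.ofReal (‖(n : ℂ) ^ (((m : ℂ) - 1) / 2) * lam i n‖ ^ 2) *
        ENNReal.ofReal (cM * tb m χ δ ^ 2) ≤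
      ∑ i, ENNReal.ofReal (‖(n : ℂ) ^ (((m : ℂ) - 1) / 2) * lam i n‖ ^ 2) *
        ∑ x, ∫⁻ g in DY D Y, ENNReal.ofReal (‖Rr (bi m χ δ) 1 (F i) (mt g) x‖ ^ 2) ∂(hm m) := by
    apply Finset.sum_le_sum
    intro i _
    refine mul_le_mul' le_rfl ?_
    exact hM N T D hS (F i) (lam i) (hF i).1 (hF i).2.2 P δ (hF i).2.1 hP hδ hδ2 hδc Y hY
  have e3 : ∫⁻ g in DY D Y, ∑ x : VN m N, ∫⁻ h in D, ∑ w : VN m N,
        (ENNReal.ofReal ‖KC g x h w‖) ^ 2 ∂(hm m) ∂(hm m) ≤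
      ∫⁻ g in DY D Y, En N D n δ (mt g) ∂(hm m) := by
    refine lintegral_mono fun g => ?_
    unfold En
    refine Finset.sum_le_sum fun x _ => lintegral_mono fun h => Finset.sum_le_sum fun w _ => ?_
    rw [hKCd]
    exact pow_le_pow_left' (hKer.maj _ _ _ _) 2
  refine le_trans (le_of_eq ?_) ((e2.trans e1).trans e3)
  rw [← Finset.sum_mul, mul_comm]
  refine congrArg (fun s => s * ENNReal.ofReal (cM * tb m χ δ ^ 2)) ?_
  exact Finset.sum_congr rfl fun i _ => one_mul _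

end Pool.Agent.H31.ZR
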