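import Pool.Agent.H31.ZR.BWN
import Pool.Agent.H31.ZR.BON
import Pool.Agent.H31.THN.CBW

/-!
Board zr (MP_52e316_nt): the rows BON and BWN without hypotheses.
-/

set_option autoImplicit false

namespace Pool.Agent.H31.ZR

open Pool.Agent.H27.L1.H34.GM Pool.Agent.H27.L1.H34.GZ Pool.Agent.H27.L1.H34.GU Pool.Agent.H27.L1.H34.GA

theorem c_BEGM : T_BEGM :=
  pf_BEGM Pool.Agent.H27.L1.H23.GA.All.c_BIA Pool.Agent.H27.L1.H23.GA.All.c_TBA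
    Pool.Agent.H27.L1.H23.GHY.All.c_MSD Pool.Agent.H27.L1.H23.GA.All.c_RRN
    Pool.Agent.H27.L1.H34.GZ.g_MSR Pool.Agent.H27.L1.H34.GZ.a_VLM Pool.Agent.H27.L1.H34.GZ.a_RTI
    Pool.Agent.H27.L1.H34.GU.b_ALU Pool.Agent.H27.L1.H34.GZ.a_DYM Pool.Agent.H31.THN.c_GHR
    Pool.Agent.H27.L1.H40.GHK.pf_BLR2
    (Pool.Agent.H27.L1.H40.GHK.pf_QIR2 Pool.Agent.H27.L1.H34.GZ.a_VLM
      Pool.Agent.H27.L1.H34.GZ.g_HAR)

theorem c_BEKM : T_BEKM := pf_BEKM Pool.Agent.H27.L1.H34.GHK.c_IPT c_BEGM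

/-- the inequality of Bessel for one coefficient, forms which generate orthogonal spaces -/
theorem c_BWN : Pool.Agent.H12.ZR.T_BWN :=
  pf_BWN Pool.Agent.H27.L1.H23.GA.All.c_BIA Pool.Agent.H20.THN.c_KM1 Pool.Agent.H20.THN.c_OC1
    c_BEKM

/-- the inequality of Bessel for one coefficient, orthonormal forms -/
theorem c_BON : Pool.Agent.H12.ZR.T_BON :=
  pf_BON Pool.Agent.H27.L1.H23.GA.All.c_BIA Pool.Agent.H27.L1.H34.GZ.a_DYM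
    Pool.Agent.H27.L1.H23.GHY.All.c_MSD Pool.Agent.H20.THN.c_KM1 Pool.Agent.H20.THN.c_OC1

end Pool.Agent.H31.ZR
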