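import Pool.Agent.H31.ZR.BEG
import Pool.Agent.H12.ZR.T
import Pool.Agent.H47.THN.Targets
import Pool.Agent.H27.L1.H49.GHY.KCD

/-!
Board zr (MP_52e316_nt): the kernel of the Hecke operator `n`, as the kernel `K1` for the indicator of `n`.
-/

set_option autoImplicit false

namespace Pool.Agent.H31.ZR

open MeasureTheory Pool.Agent.H27.L1.H34.GM Pool.Agent.H27.L1.H34.GZ Pool.Agent.H27.L1.H34.GU
  Pool.Agent.H27.L1.H34.GA Pool.Agent.H27.L1.H68.GHY
open Pool.Agent.H47.THN (K1 B1 T_KC1 T_KM1 T_OC1)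
open Pool.Agent.H12.ZR (Kn En BESN)
open Pool.Agent.H27.L1.H49.GHY (bi_supp1)

open Classical in
/-- the indicator of `n` -/
noncomputable def an (n : ℕ) (k : ℕ) : ℂ := if k = n then 1 else 0

/-- the window with the centre `n` -/
noncomputable def xn (n : ℕ) (d : ℝ) : ℝ := n * Real.exp (-(d / 2))

theorem an_coe {n : ℕ} (hn : 1 ≤ n) : Coe (n : ℝ) (an n) := by
  refine ⟨fun k => ?_, fun k hk => ?_⟩
  · unfold an
    split_ifs <;> simp
  · have h1 : k = n := by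
      by_contra hc
      exact hk (if_neg hc)
    have h2 : (1 : ℝ) ≤ n := by exact_mod_cast hn
    rw [h1]
    constructor
    · linarith
    · exact le_rfl

theorem xn_pos {n : ℕ} (hn : 1 ≤ n) (d : ℝ) : 0 < xn n d := by
  have h2 : (0 : ℝ) < n := by exact_mod_cast hn
  unfold xn
  positivity

theorem xn_wd {n : ℕ} (hn : 1 ≤ n) {d : ℝ} (hd : 0 < d) : wd (xn n d) d n := by
  have h2 : (0 : ℝ) < n := by exact_mod_cast hn
  unfold wd xn
  constructor
  · have h1 : Real.exp (-(d / 2)) < 1 := by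
      rw [Real.exp_lt_one_iff]
      linarith
    nlinarith
  · rw [mul_assoc, ← Real.exp_add]
    have h1 : 1 ≤ Real.exp (-(d / 2) + d) := Real.one_le_exp (by linarith)
    nlinarith

/-- the multiplier -/
theorem B1_an {m : ℕ} (lam : ℕ → ℂ) {n : ℕ} (hn : 1 ≤ n) {d : ℝ} (hd : 0 < d) :
    B1 m lam (an n) n d (xn n d) = (n : ℂ) ^ (((m : ℂ) - 1) / 2) * lam n := by
  classical
  unfold B1
  rw [Nat.floor_natCast, Finset.sum_eq_single n]
  · rw [if_pos (xn_wd hn hd)]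
    unfold tl an
    rw [if_pos rfl, one_mul]
  · intro k _ hk
    split_ifs with h
    · unfold tl an
      rw [if_neg hk, zero_mul]
    · rfl
  · intro h
    exact absurd (Finset.mem_Icc.2 ⟨hn, le_rfl⟩) h

open Classical in
/-- the majorant -/
theorem K1_maj {m N : ℕ} {χ : ℝ → ℝ} (hχ : Prof χ) {n : ℕ} {d : ℝ} (hd : 0 < d) (x0 : ℝ)
    (g h : Mat m) (x w : VN m N) :
    ENNReal.ofReal ‖K1 (bi m χ d) (an n) d x0 g x h w‖ ≤ Kn n d g x h w := by
  unfold K1 Kn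
  rw [ofReal_norm]
  refine enorm_tsum_le_tsum_enorm.trans (ENNReal.tsum_le_tsum fun γ => ?_)
  by_cases h1 : ac N γ x = w ∧ Pr w ∧ γ.det ≠ 0 ∧ wd x0 d γ.det.natAbs
  · rw [if_pos h1]
    by_cases h2 : bi m χ d (kk (aN (cR γ)) h (cR γ) g) = 0
    · rw [h2]
      simp
    · by_cases h6 : γ.det.natAbs = n
      · have h3 := bi_supp1 hχ hd _ h2
        rw [if_pos ⟨h1.1, h1.2.1, h6, h3⟩, ← ofReal_norm, ← ENNReal.ofReal_one]
        apply ENNReal.ofReal_le_ofReal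
        unfold an
        rw [if_pos h6, one_mul]
        exact Pool.Agent.H27.L1.H79.GA.bi_norm_le hχ d _
      · unfold an
        rw [if_neg h6]
        simp
  · rw [if_neg h1]
    simp

/-- the kernel of the Hecke operator `n` -/
theorem kerM_K1 (hBIA : T_BIA) (hKM : T_KM1) (hOC : T_OC1) {m N : ℕ} [NeZero N]
    {T : ℕ → Finset (ZM m)} {D : Set (V m)} (hS : SysZ m N T D) {χ : ℝ → ℝ} (hχ : Prof χ)
    {n : ℕ} (hn : 1 ≤ n) {d : ℝ} (hd : 0 < d) (hd2 : d ≤ 1 / 2) :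
    KerM (N := N) T D (bi m χ d) (Kn n d) (K1 (bi m χ d) (an n) d (xn n d))
      (fun lam => (n : ℂ) ^ (((m : ℂ) - 1) / 2) * lam n) := by
  have hm1 := hS.one_le
  have hy : (1 : ℝ) ≤ n := by exact_mod_cast hn
  obtain ⟨C, -, hB⟩ := hBIA m χ hm1 hχ
  refine ⟨fun x w => hKM m N d x w hm1 _ (hB d hd hd2).1.toTg (an n) (xn n d),
    fun g h x w => K1_maj hχ hd _ g h x w, fun F lam hF g x hg => ?_⟩
  rw [hOC m N T D hS F lam hF χ hχ n (an n) d (xn n d) hy (an_coe hn) hd hd2 (xn_pos hn d) g x hg,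
    B1_an lam hn hd]

end Pool.Agent.H31.ZR
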